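import Pool.Agent.Run7.h197.Z.SFC

/-!
# MP_be1fae_nt: `S`-unit coefficients, two exponents with a common factor

Let `S` be a finite set of primes, `d ≥ 2`, and let `P` be a finite set of algebraic numbers (with
`-1 ∉ P` if `d = 2`). We consider the solutions of `a x^p + b y^q = c z^r` with `gcd(ax, by, cz) = 1`
in which `a`, `b` are arbitrary `S`-units, `p` and `q` are divisible by `d`, and the quotient of the
two terms `a x^p`, `b y^q` is close to a point `w` of `P ∪ {∞}`:
`|a x^p / (b y^q) - w| ≤ H^(-1/M)`, or `≥ H^(1/M)` for `w = ∞`, where `H = max(|a x^p|, |b y^q|)`.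
(For `w = 0`, `∞`, `-1` this says that the first, the second, the third of the terms `a x^p`, `b y^q`,
`c z^r` is smaller than the others by a power of `H`.)

**Theorem.** (1) For every `s` there is `κ` such that for all these solutions, with ANY `c ≠ 0` with
at most `s` prime factors, which need not be in `S`, and any exponent `r`:
`min (r, log H) ≤ (2 + log rad(c))^κ`.

(2) There is `r₀` such that the triples `(a x^p, b y^q, c z^r)` coming from these solutions with `c` an
`S`-unit and `r ≥ r₀` are finite in number; so this holds for all `S`-solutions of this kind.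

The role of `z` can be played by any of the three terms, since the signs of `a`, `b`, `c` are
arbitrary. The coefficients `a`, `b` run through infinitely many classes modulo `r`-th powers, as `r`
is unbounded, and through the finitely many classes modulo `d`-th powers.

Proof. Dividing by `d`-th powers of `S`-units we may assume that `a = A X^d / x^p`, `b = B Y^d / y^q` with
`A`, `B` in a finite set and `X`, `Y` coprime integers. The orders of `A (X/Y)^d + B` at the primes not
dividing `A B c` are divisible by `r` if they are positive, and `X/Y` is close to a `d`-th root of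
`w B / A`. So, for two zeros `α`, `α'` of `A T^d + B` different from this root, the positive orders of
`X/Y - α` and `X/Y - α'` are divisible by `r` outside of the places above `A B c`. After a Moebius
transformation their quotient is close to `1` and it is a product of an `r`-th power and of powers of
numbers whose heights are bounded by a power of `rad(c)`; this contradicts a lower bound for linear
forms in logarithms which is sharp in one height and polynomial in the logarithms of the others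
(`Run7.h197.BK`, `Run7.h197.V`) unless `min (r, log H) ≤ (2 + log rad(c))^κ`.
-/

set_option autoImplicit false

namespace Pool.Agent.Results.MP_be1fae_nt.CommonFactorSUnits

/-- `a` is a nonzero integer all of whose prime factors are in `S`. -/
def SUnit (S : Finset ℕ) (a : ℤ) : Prop := a ≠ 0 ∧ ∀ p : ℕ, p.Prime → (p : ℤ) ∣ a → p ∈ S

/-- The product of the prime factors of `c`. -/
def rad (c : ℤ) : ℕ := ∏ p ∈ c.natAbs.primeFactors, p

/-- `U / V` is close to the point `w` of the projective line (`none` is the point at infinity):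
`|U/V - w| ≤ H^(-1/M)`, or `|U/V| ≥ H^(1/M)`, where `H = max(|U|, |V|)`. -/
def Near (M : ℕ) (U V : ℤ) : Option ℂ → Prop
  | none => max |(U : ℝ)| |(V : ℝ)| * |(V : ℝ)| ^ M ≤ |(U : ℝ)| ^ M
  | some w => max |(U : ℝ)| |(V : ℝ)| * ‖(U : ℂ) - w * (V : ℂ)‖ ^ M ≤ |(V : ℝ)| ^ M

/-- A solution of `a x^p + b y^q = c z^r` in nonzero integers with `gcd(ax, by, cz) = 1`, where `a`, `b`
are `S`-units, `p` and `q` are positive and divisible by `d`, and the quotient of `a x^p` and `b y^q` is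
close to a point of `P ∪ {∞}`. -/
def Solution (S : Finset ℕ) (d : ℕ) (P : Finset ℂ) (M : ℕ) (a b c x y z : ℤ) (p q r : ℕ) : Prop :=
  SUnit S a ∧ SUnit S b ∧ c ≠ 0 ∧ x ≠ 0 ∧ y ≠ 0 ∧ z ≠ 0 ∧ 0 < p ∧ 0 < q ∧ d ∣ p ∧ d ∣ q ∧
    Int.gcd (a * x) (Int.gcd (b * y) (c * z)) = 1 ∧ a * x ^ p + b * y ^ q = c * z ^ r ∧
    ∃ w : Option ℂ, (∀ v, w = some v → v ∈ P) ∧ Near M (a * x ^ p) (b * y ^ q) w

/-- **`S`-unit coefficients, two exponents with a common factor.** -/
theorem result (S : Finset ℕ) (d : ℕ) (hd : 2 ≤ d) (P : Finset ℂ) (hP : ∀ w ∈ P, IsAlgebraic ℚ w)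
    (hP2 : d = 2 → (-1 : ℂ) ∉ P) (M : ℕ) :
    -- (1)
    (∀ s : ℕ, ∃ κ : ℕ, ∀ (a b c x y z : ℤ) (p q r : ℕ), Solution S d P M a b c x y z p q r →
      c.natAbs.primeFactors.card ≤ s →
      min (r : ℝ) (Real.log (max |((a * x ^ p : ℤ) : ℝ)| |((b * y ^ q : ℤ) : ℝ)|)) ≤
        (2 + Real.log (rad c)) ^ κ) ∧
    -- (2)
    ∃ r₀ : ℕ, {T : ℤ × ℤ × ℤ | ∃ (a b c x y z : ℤ) (p q r : ℕ), r₀ ≤ r ∧ SUnit S c ∧
      Solution S d P M a b c x y z p q r ∧ T = (a * x ^ p, b * y ^ q, c * z ^ r)}.Finite := by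
  have key : ∀ s : ℕ, ∃ κ : ℕ, ∀ (a b c x y z : ℤ) (p q r : ℕ), Solution S d P M a b c x y z p q r →
      c.natAbs.primeFactors.card ≤ s →
      min (r : ℝ) (Real.log (max |((a * x ^ p : ℤ) : ℝ)| |((b * y ^ q : ℤ) : ℝ)|)) ≤
        (2 + Real.log (rad c)) ^ κ := by
    intro s
    obtain ⟨κ, hκ⟩ := Run7.h197.Z.sfc S d hd P hP hP2 M s
    refine ⟨κ, ?_⟩
    rintro a b c x y z p q r ⟨ha, hb, hc, hx, hy, hz, hp, hq, hdp, hdq, hg, heq, w, hw, hnear⟩ hcs
    exact hκ a b c x y z p q r ha hb hc hcs hx hy hz hp hq hdp hdq hg heq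
      ⟨w, hw, by rcases w with _ | w <;> exact hnear⟩
  refine ⟨key, ?_⟩
  obtain ⟨κ, hκ⟩ := key S.card
  obtain ⟨Q, hQ⟩ : ∃ Q : ℕ, Q = ∏ p ∈ S.filter Nat.Prime, p := ⟨_, rfl⟩
  obtain ⟨R, hR⟩ : ∃ R : ℝ, R = (2 + Real.log Q) ^ κ := ⟨_, rfl⟩
  obtain ⟨N, hN⟩ : ∃ N : ℕ, Real.exp R ≤ N := exists_nat_ge _
  refine ⟨⌈R⌉₊ + 1, ((Set.finite_Icc (-(N : ℤ)) N).prod (Set.finite_Icc (-(N : ℤ)) N)).image
    (fun UV : ℤ × ℤ => (UV.1, UV.2, UV.1 + UV.2)) |>.subset ?_⟩
  rintro T ⟨a, b, c, x, y, z, p, q, r, hr, hcS, hsol, rfl⟩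
  obtain ⟨h1, h2⟩ := Run7.h197.Z.rad_le S c hcS
  rw [← hQ] at h1
  have h3 := hκ a b c x y z p q r hsol h2
  obtain ⟨ha, hb, hc, hx, hy, hz, hp, hq, hdp, hdq, hg, heq, -⟩ := hsol
  have hrad : (0 : ℝ) < rad c := by exact_mod_cast Nat.pos_of_ne_zero (Run7.h197.Z.rad_ne c)
  have h4 : (2 + Real.log (rad c)) ^ κ ≤ R := by
    rw [hR]
    have l1 : 0 ≤ Real.log (rad c : ℝ) := Real.log_natCast_nonneg _
    apply pow_le_pow_left₀ (by linarith)
    have l2 : Real.log (rad c : ℝ) ≤ Real.log Q := Real.log_le_log hrad (by exact_mod_cast h1)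
    linarith
  have h5 : R < r := by
    have g1 := Nat.le_ceil R
    have g2 : ((⌈R⌉₊ + 1 : ℕ) : ℝ) ≤ r := by exact_mod_cast hr
    push_cast at g2
    linarith
  have h6 : Real.log (max |((a * x ^ p : ℤ) : ℝ)| |((b * y ^ q : ℤ) : ℝ)|) ≤ R := by
    rcases min_le_iff.1 (h3.trans h4) with h | h
    · exact absurd h (not_le.2 h5)
    · exact h
  have h7 : max |((a * x ^ p : ℤ) : ℝ)| |((b * y ^ q : ℤ) : ℝ)| ≤ N := by
    refine le_trans ?_ hN
    have g0 : 0 < max |((a * x ^ p : ℤ) : ℝ)| |((b * y ^ q : ℤ) : ℝ)| :=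
      lt_max_of_lt_left (abs_pos.2 (Int.cast_ne_zero.2 (mul_ne_zero ha.1 (pow_ne_zero _ hx))))
    rw [← Real.exp_log g0]
    exact Real.exp_le_exp.2 h6
  have h8 : |a * x ^ p| ≤ N := by exact_mod_cast (le_max_left _ _).trans h7
  have h9 : |b * y ^ q| ≤ N := by exact_mod_cast (le_max_right _ _).trans h7
  refine ⟨(a * x ^ p, b * y ^ q), ⟨Set.mem_Icc.2 (abs_le.1 h8), Set.mem_Icc.2 (abs_le.1 h9)⟩, ?_⟩
  simp only [heq]

end Pool.Agent.Results.MP_be1fae_nt.CommonFactorSUnits
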