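import Pool.Agent.Run7.h603.Fp5

/-!
# Generalised Fermat equations with `S`-unit coefficients: few products, few solutions

Let `B` be a finite set of positive integers with few products, `|B B| ≤ K |B|`. The `S`-solutions of
`a x ^ p + b y ^ q = c z ^ r` whose bases are in `B`, up to sign and up to factors composed of primes
of `S`, have at most `C ^ (|S| + 1) (log₂ X + 1) ^ (δ |S|) K ^ C |B| ^ δ` triples of terms of absolute
value at most `X`, for every `δ > 0` and with `C` depending only on `δ`; this is uniform in the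
exponents `p`, `q`, `r`, and with the factor `(log₂ X + 1) ^ 3` it holds for all exponents together.
There is no bound for the size of the bases.

More generally, let `T` be a finite set of triples of coprime nonzero integers with `X + Y = Z`, and
let `T ^ (N)` be the set of the componentwise products of `N` elements of `T`. Then
`|T ^ (N)| ≥ (|T| / 4) ^ e(N)` with `e(N) = log N / (log log N + 7/5)`.

Proof. The pairs `(X, Z)` are considered as elements of the ring `ℤ × ℤ` with the valuations of both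
factors, and they are mapped to `(Y / Z, - Y / X)` in the product of two copies of the multiplicative
group of the rational numbers: `X` is divisible by `p ^ j` if and only if `Y / Z ≡ 1` modulo `p ^ j`,
and `Z` if and only if `- Y / X ≡ 1`. This is the situation of the induction over the valuation
classes in `Pool/Agent/N811/IS` (starting files), in the version of `Run7/h603/Sh1` for maps to an
abelian group. Then Plünnecke's inequality.
-/

set_option autoImplicit false

namespace Pool.Agent.Results.MP_be1fae_nt.FewProducts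

open Finset Run7.h603.Fp

/-- The set of the products of `N` elements of `X`. -/
def products (N : ℕ) (X : Finset ℕ) : Finset ℕ :=
  (Fintype.piFinset fun _ : Fin N => X).image fun f => ∏ i, f i

/-- The set of the componentwise products of `N` elements of a set of triples. -/
def tripleProducts (N : ℕ) (T : Finset (ℤ × ℤ × ℤ)) : Finset (ℤ × ℤ × ℤ) :=
  (Fintype.piFinset fun _ : Fin N => T).image fun f => ∏ i, f i

/-- The exponent `log N / (log log N + 7/5)`; it tends to infinity. -/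
noncomputable def expo (N : ℕ) : ℝ := Real.log N / (Real.log (Real.log N) + 7 / 5)

/-- `a` is nonzero and all prime factors of `a` are in `S`. -/
def Composed (S : Finset ℕ) (a : ℤ) : Prop :=
  a ≠ 0 ∧ ∀ l : ℕ, l.Prime → (l : ℤ) ∣ a → l ∈ S

/-- `x` is, up to sign, the product of an element of `B` and of a number composed of primes of `S`
(for example `|x|` is in `B`). -/
def BaseIn (S B : Finset ℕ) (x : ℤ) : Prop :=
  ∃ m b : ℕ, Composed S m ∧ b ∈ B ∧ x.natAbs = m * b

/-- `t` is the triple of terms `(a x ^ p, b y ^ q, c z ^ r)` of an `S`-solution with the exponents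
`p`, `q`, `r`, with the bases in `B` up to sign and primes of `S`, and with terms of absolute value at
most `X`. -/
def IsTerms (S B : Finset ℕ) (X p q r : ℕ) (t : ℤ × ℤ × ℤ) : Prop :=
  ∃ a b c x y z : ℤ, (0 < p ∧ 0 < q ∧ 0 < r ∧ (1 / p + 1 / q + 1 / r : ℚ) < 1) ∧
    (Composed S a ∧ Composed S b ∧ Composed S c) ∧
    (BaseIn S B x ∧ BaseIn S B y ∧ BaseIn S B z) ∧
    Int.gcd (Int.gcd (a * x) (b * y)) (c * z) = 1 ∧
    a * x ^ p + b * y ^ q = c * z ^ r ∧ t = (a * x ^ p, b * y ^ q, c * z ^ r) ∧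
    (a * x ^ p).natAbs ≤ X ∧ (b * y ^ q).natAbs ≤ X ∧ (c * z ^ r).natAbs ≤ X

/-- the terms of a solution are coprime -/
theorem coprime_of {a b c x y z : ℤ} {p q r : ℕ} (he : a * x ^ p + b * y ^ q = c * z ^ r)
    (hg : Int.gcd (Int.gcd (a * x) (b * y)) (c * z) = 1) :
    IsCoprime (a * x ^ p) (b * y ^ q) := by
  rw [Int.isCoprime_iff_gcd_eq_one]
  by_contra hne
  obtain ⟨l, hl, hd⟩ := Nat.exists_prime_and_dvd hne
  have hli : Prime (l : ℤ) := Nat.prime_iff_prime_int.1 hl
  have h1 : (l : ℤ) ∣ a * x ^ p := (Int.natCast_dvd_natCast.2 hd).trans (Int.gcd_dvd_left ..)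
  have h2 : (l : ℤ) ∣ b * y ^ q := (Int.natCast_dvd_natCast.2 hd).trans (Int.gcd_dvd_right ..)
  have h3 : (l : ℤ) ∣ c * z ^ r := by rw [← he]; exact dvd_add h1 h2
  have key : ∀ (u v : ℤ) (n : ℕ), (l : ℤ) ∣ u * v ^ n → (l : ℤ) ∣ u * v := by
    intro u v n hn
    rcases hli.dvd_or_dvd hn with h | h
    · exact Dvd.dvd.mul_right h _
    · exact Dvd.dvd.mul_left (hli.dvd_of_dvd_pow h) _
  have h4 := Int.dvd_coe_gcd (Int.dvd_coe_gcd (key _ _ _ h1) (key _ _ _ h2)) (key _ _ _ h3)
  rw [hg] at h4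
  exact hli.not_isUnit (isUnit_of_dvd_one (by simpa using h4))

/-- one term -/
theorem term_mem {S B : Finset ℕ} {X p : ℕ} {a x : ℤ} (hB : 0 ∉ B) (ha : Composed S a)
    (hx : BaseIn S B x) (hX : (a * x ^ p).natAbs ≤ X) :
    (a * x ^ p).natAbs ∈ tm S (Nat.log 2 X) B p ∧
      ∃ p' ∈ Finset.range (Nat.log 2 X + 1), (a * x ^ p).natAbs ∈ tm S (Nat.log 2 X) B p' := by
  obtain ⟨m, b, hm, hb, hxe⟩ := hx
  have hb0 : b ≠ 0 := fun h => hB (h ▸ hb)
  have hm0 : m ≠ 0 := fun h => hm.1 (by rw [h]; rfl)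
  have ha0 : a.natAbs ≠ 0 := Int.natAbs_ne_zero.2 ha.1
  have e : (a * x ^ p).natAbs = (a.natAbs * m ^ p) * b ^ p := by
    rw [Int.natAbs_mul, Int.natAbs_pow, hxe, mul_pow, mul_assoc]
  have hn0 : a.natAbs * m ^ p ≠ 0 := mul_ne_zero ha0 (pow_ne_zero _ hm0)
  have hbp : 1 ≤ b ^ p := Nat.one_le_pow _ _ (Nat.pos_of_ne_zero hb0)
  rw [e] at hX
  have hnX : a.natAbs * m ^ p ≤ X := le_trans (Nat.le_mul_of_pos_right _ hbp) hX
  have hbX : b ^ p ≤ X := le_trans (Nat.le_mul_of_pos_left _ (Nat.pos_of_ne_zero hn0)) hX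
  have hcs : a.natAbs * m ^ p ∈ cs S (Nat.log 2 X) := by
    refine mem_cs hn0 (fun l hl hd => ?_) hnX
    rcases (Nat.Prime.dvd_mul hl).1 hd with h | h
    · exact ha.2 l hl (Int.natCast_dvd.2 h)
    · exact hm.2 l hl (by exact_mod_cast hl.dvd_of_dvd_pow h)
  rw [e]
  refine ⟨mem_tm hcs hb, ?_⟩
  obtain ⟨p', hp', he'⟩ := pow_small hb0 hbX
  refine ⟨p', hp', ?_⟩
  rw [he']
  exact mem_tm hcs hb

theorem sol_of {S B : Finset ℕ} {X p q r : ℕ} (hB : 0 ∉ B) {t : ℤ × ℤ × ℤ}
    (ht : IsTerms S B X p q r t) : Sol S (Nat.log 2 X) B p q r t := by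
  obtain ⟨a, b, c, x, y, z, -, ⟨ha, hb, hc⟩, ⟨hx, hy, hz⟩, hg, he, rfl, h1, h2, h3⟩ := ht
  exact ⟨(term_mem hB ha hx h1).1, (term_mem hB hb hy h2).1, (term_mem hB hc hz h3).1, he,
    coprime_of he hg⟩

theorem sol_of' {S B : Finset ℕ} {X p q r : ℕ} (hB : 0 ∉ B) {t : ℤ × ℤ × ℤ}
    (ht : IsTerms S B X p q r t) : ∃ p ∈ Finset.range (Nat.log 2 X + 1),
      ∃ q ∈ Finset.range (Nat.log 2 X + 1), ∃ r ∈ Finset.range (Nat.log 2 X + 1),
        Sol S (Nat.log 2 X) B p q r t := by
  obtain ⟨a, b, c, x, y, z, -, ⟨ha, hb, hc⟩, ⟨hx, hy, hz⟩, hg, he, rfl, h1, h2, h3⟩ := ht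
  obtain ⟨p', hp', k1⟩ := (term_mem hB ha hx h1).2
  obtain ⟨q', hq', k2⟩ := (term_mem hB hb hy h2).2
  obtain ⟨r', hr', k3⟩ := (term_mem hB hc hz h3).2
  exact ⟨p', hp', q', hq', r', hr', k1, k2, k3, he, coprime_of he hg⟩

theorem terms_mono {S B : Finset ℕ} {X X' p q r : ℕ} (h : X ≤ X') {t : ℤ × ℤ × ℤ}
    (ht : IsTerms S B X p q r t) : IsTerms S B X' p q r t := by
  obtain ⟨a, b, c, x, y, z, h0, h1, h2, h3, h4, h5, h6, h7, h8⟩ := ht
  exact ⟨a, b, c, x, y, z, h0, h1, h2, h3, h4, h5, h6.trans h, h7.trans h, h8.trans h⟩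

/-- **Few products, few solutions.**

(1) Let `T` be a finite nonempty set of triples of coprime nonzero integers with `X + Y = Z`. For
every `N ≥ 2` the set of the componentwise products of `N` elements of `T` has at least
`(|T| / 4) ^ e(N)` elements, and
`(|T| / 4) ^ e(N) ≤ 2 |U ^ (N)| |V ^ (N)| |W ^ (N)|`, where `U`, `V`, `W` are the sets of the absolute
values of the first, second and third terms.

Let `S` be a finite set of primes, `s = |S|`, and let `B` be a finite set of positive integers.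

(2) The number `M` of the triples of terms, of absolute value at most `X`, of the `S`-solutions with
given exponents `p`, `q`, `r` and with bases in `B` up to sign and primes of `S` satisfies
`(M / 4) ^ e(N) ≤ 2 ((N log₂ X + 1) ^ s |B ^ (N)|) ^ 3` for every `N ≥ 2`, and
`(M / 4) ^ e(N) ≤ 2 ((N log₂ X + 1) ^ s K ^ N |B|) ^ 3` if `|B ^ (2)| ≤ K |B|`.

(3) For every `δ > 0` there is `C ≥ 1` such that for all `S`, `B`, `X` and all `K ≥ 1` with
`|B ^ (2)| ≤ K |B|`: for given exponents there are at most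
`C ^ (s + 1) (log₂ X + 1) ^ (δ s) K ^ C |B| ^ δ` such triples; for all exponents together there are at
most `C ^ (s + 1) (log₂ X + 1) ^ (3 + δ s) K ^ C |B| ^ δ`; and for `S` empty and given exponents at
most `C K ^ C |B| ^ δ`, without a bound for the terms.

Here `log₂` is rounded down. -/
theorem result :
    (∀ N : ℕ, 2 ≤ N → ∀ T : Finset (ℤ × ℤ × ℤ), T.Nonempty →
      (∀ t ∈ T, t.1 + t.2.1 = t.2.2 ∧ t.1 ≠ 0 ∧ t.2.1 ≠ 0 ∧ t.2.2 ≠ 0 ∧ IsCoprime t.1 t.2.1) →
      ((T.card : ℝ) / 4) ^ expo N ≤ (tripleProducts N T).card ∧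
      ((T.card : ℝ) / 4) ^ expo N ≤
        2 * (products N (T.image fun t => t.1.natAbs)).card *
          (products N (T.image fun t => t.2.1.natAbs)).card *
          (products N (T.image fun t => t.2.2.natAbs)).card) ∧
    (∀ (S B : Finset ℕ), (∀ l ∈ S, l.Prime) → 0 ∉ B → ∀ X p q r : ℕ,
      {t | IsTerms S B X p q r t}.Finite ∧ ∀ N : ℕ, 2 ≤ N →
        (({t | IsTerms S B X p q r t}.ncard : ℝ) / 4) ^ expo N ≤
          2 * (((N : ℝ) * Nat.log 2 X + 1) ^ S.card * (products N B).card) ^ 3 ∧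
        ∀ K : ℝ, ((products 2 B).card : ℝ) ≤ K * B.card →
          (({t | IsTerms S B X p q r t}.ncard : ℝ) / 4) ^ expo N ≤
            2 * (((N : ℝ) * Nat.log 2 X + 1) ^ S.card * (K ^ N * B.card)) ^ 3) ∧
    (∀ δ : ℝ, 0 < δ → ∃ C : ℝ, 1 ≤ C ∧ ∀ (S B : Finset ℕ), (∀ l ∈ S, l.Prime) → 0 ∉ B →
      ∀ K : ℝ, 1 ≤ K → ((products 2 B).card : ℝ) ≤ K * B.card →
      (∀ X p q r : ℕ, ({t | IsTerms S B X p q r t}.ncard : ℝ) ≤
        C ^ (S.card + 1) * ((Nat.log 2 X : ℝ) + 1) ^ (δ * S.card) * K ^ C * (B.card : ℝ) ^ δ) ∧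
      (∀ X : ℕ, {t | ∃ p q r, IsTerms S B X p q r t}.Finite ∧
        ({t | ∃ p q r, IsTerms S B X p q r t}.ncard : ℝ) ≤
        C ^ (S.card + 1) * ((Nat.log 2 X : ℝ) + 1) ^ (3 + δ * S.card) * K ^ C * (B.card : ℝ) ^ δ) ∧
      (S = ∅ → ∀ p q r : ℕ, {t | ∃ X, IsTerms S B X p q r t}.Finite ∧
        ({t | ∃ X, IsTerms S B X p q r t}.ncard : ℝ) ≤ C * K ^ C * (B.card : ℝ) ^ δ)) := by
  classical
  have hfew : ∀ δ : ℝ, 0 < δ → ∃ C : ℝ, 1 ≤ C ∧ ∀ (S B : Finset ℕ), (∀ l ∈ S, l.Prime) → 0 ∉ B →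
      ∀ K : ℝ, 1 ≤ K → ((products 2 B).card : ℝ) ≤ K * B.card →
      ∀ (h p q r : ℕ) (T : Finset (ℤ × ℤ × ℤ)), (∀ t ∈ T, Sol S h B p q r t) →
      (T.card : ℝ) ≤ C ^ (S.card + 1) * ((h : ℝ) + 1) ^ (δ * S.card) * K ^ C *
        (B.card : ℝ) ^ δ := by
    intro δ hδ
    obtain ⟨C, hC1, hC⟩ := few δ hδ
    exact ⟨C, hC1, fun S B hS hB K hK1 hK h p q r T hT =>
      hC S (fun l hl => (hS l hl).ne_zero) h B hB p q r K hK1 hK T hT⟩
  have hfin : ∀ (S B : Finset ℕ), (∀ l ∈ S, l.Prime) → 0 ∉ B → ∀ X p q r : ℕ,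
      {t | IsTerms S B X p q r t}.Finite := by
    intro S B hS hB X p q r
    obtain ⟨C, -, hC⟩ := hfew 1 one_pos
    rcases B.eq_empty_or_nonempty with hBe | hBn
    · have : {t | IsTerms S B X p q r t} = ∅ := by
        rw [Set.eq_empty_iff_forall_notMem]
        rintro t ⟨a, b, c, x, y, z, -, -, ⟨⟨m, n, -, hn, -⟩, -⟩, -⟩
        rw [hBe] at hn
        exact absurd hn (Finset.notMem_empty _)
      rw [this]
      exact Set.finite_empty
    have hB1 : (1 : ℝ) ≤ B.card := by exact_mod_cast hBn.card_pos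
    refine (ncard_le _ _ fun T hT => hC S B hS hB (max 1 ((products 2 B).card : ℝ))
      (le_max_left _ _) ?_ (Nat.log 2 X) p q r T fun t ht => sol_of hB (hT t ht)).1
    have h1 := le_max_right (1 : ℝ) ((products 2 B).card : ℝ)
    have h2 := le_max_left (1 : ℝ) ((products 2 B).card : ℝ)
    nlinarith
  refine ⟨?_, ?_, ?_⟩
  · intro N hN T hT h
    exact ⟨triples_low hN T hT h, terms_low hN T hT h _ _ _
      (fun t ht => Finset.mem_image_of_mem _ ht)
      (fun t ht => Finset.mem_image_of_mem _ ht) (fun t ht => Finset.mem_image_of_mem _ ht)⟩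
  · intro S B hS hB X p q r
    have hf := hfin S B hS hB X p q r
    refine ⟨hf, fun N hN => ?_⟩
    rw [Set.ncard_eq_toFinset_card _ hf]
    have hex : 0 < expo N := by
      have hN2 : (2 : ℝ) ≤ N := by exact_mod_cast hN
      have hL := Real.log_two_gt_d9
      have hx0 : Real.log 2 ≤ Real.log N := Real.log_le_log (by norm_num) hN2
      have hD : 0 < Real.log (Real.log N) + 7 / 5 :=
        Pool.Agent.N811.IS.den_pos (by linarith)
      exact div_pos (by linarith) hD
    rcases hf.toFinset.eq_empty_or_nonempty with he | hne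
    · rw [he, Finset.card_empty, Nat.cast_zero, zero_div, Real.zero_rpow hex.ne']
      refine ⟨by positivity, fun K hK => ?_⟩
      rcases B.eq_empty_or_nonempty with hBe | hBn
      · rw [hBe, Finset.card_empty, Nat.cast_zero]
        simp
      · have hB1 : (0 : ℝ) < B.card := by exact_mod_cast hBn.card_pos
        have hK0 : 0 ≤ K := by
          have h0 : (0 : ℝ) ≤ (products 2 B).card := Nat.cast_nonneg _
          by_contra hneg
          push Not at hneg
          have := mul_neg_of_neg_of_pos hneg hB1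
          linarith
        positivity
    · have := sol_low hN S (fun l hl => (hS l hl).ne_zero) (Nat.log 2 X) B hB p q r hf.toFinset
        hne fun t ht => sol_of hB (hf.mem_toFinset.1 ht)
      push_cast at this
      refine ⟨this, fun K hK => this.trans ?_⟩
      have hBn : B.Nonempty := by
        obtain ⟨t, ht⟩ := hne
        obtain ⟨a, b, c, x, y, z, -, -, ⟨⟨m, n, -, hn, -⟩, -⟩, -⟩ := hf.mem_toFinset.1 ht
        exact ⟨n, hn⟩
      have hg := pr_growth B hB hBn K hK N
      gcongr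
  · intro δ hδ
    obtain ⟨C, hC1, hC⟩ := hfew δ hδ
    refine ⟨C, hC1, fun S B hS hB K hK1 hK => ⟨fun X p q r => ?_, fun X => ?_, ?_⟩⟩
    · exact (ncard_le _ _ fun T hT => hC S B hS hB K hK1 hK _ p q r T
        fun t ht => sol_of hB (hT t ht)).2
    · have hL : (0 : ℝ) < (Nat.log 2 X : ℝ) + 1 := by positivity
      refine ncard_le _ _ fun T hT => ?_
      have h1 := all_exponents S X B T _ (fun t ht => by
          obtain ⟨p, q, r, h⟩ := hT t ht
          exact sol_of' hB h)
        (fun p q r T' hT' => hC S B hS hB K hK1 hK _ p q r T' hT')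
      refine h1.trans (le_of_eq ?_)
      rw [Real.rpow_add hL]
      have : ((Nat.log 2 X : ℝ) + 1) ^ (3 : ℝ) = ((Nat.log 2 X : ℝ) + 1) ^ 3 := by
        rw [← Real.rpow_natCast]; norm_num
      rw [this]; ring
    · rintro rfl p q r
      refine ncard_le _ _ fun T hT => ?_
      have hch : ∀ t : ℤ × ℤ × ℤ, ∃ X : ℕ, t ∈ T → IsTerms ∅ B X p q r t := by
        intro t
        by_cases ht : t ∈ T
        · obtain ⟨X, hX⟩ := hT t ht
          exact ⟨X, fun _ => hX⟩
        · exact ⟨0, fun h => absurd h ht⟩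
      choose F hF using hch
      have h1 := hC ∅ B hS hB K hK1 hK (Nat.log 2 (T.sup F)) p q r T fun t ht =>
        sol_of hB (terms_mono (Finset.le_sup (f := F) ht) (hF t ht))
      simpa using h1

end Pool.Agent.Results.MP_be1fae_nt.FewProducts
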