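import Mathlib
import Pool.Agent.Run7.h777.FC.MainC

/-!
# Generalised Fermat equations with small coefficients and bases of boundedly many digits

For every `D` and `θ > 0` there is `δ > 0` such that only finitely many triples of terms
`(a x ^ p, b y ^ q, c z ^ r)` come from solutions of `a x ^ p + b y ^ q = c z ^ r` with
`gcd (ax, by, cz) = 1`, `1/p + 1/q + 1/r ≤ 1` and the following properties, where
`N = max (|x|, |y|, |z|)`: the coefficients `a`, `b`, `c` and the exponents `p`, `q`, `r` are at most `N ^ δ`,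
the bases are at least `N ^ θ`, and for some integer `w ≥ 2` each of `|x|`, `|y|`, `|z|` is a sum
`w ^ n + c_1 w ^ (e_1) + ... + c_D w ^ (e_D)` with `e_i ≤ (1 - θ) n` and integers `|c_i| ≤ N ^ δ`, and at
most one of `x`, `y`, `z` divides a power of `w` (automatic for a prime power `w`).

Nothing else is fixed: the coefficients, which need not be `S`-units, the exponents, the base `w` (for
instance `w = 2`), the positions and the digits vary.

Proof. Comparison of the leading digits gives integers `c_0`, `c_1`, `c_2` of size `N ^ (O(δ))` and `k` with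
`c_0 (1 + ..) ^ p + c_1 w ^ (-k) (1 + ..) ^ q + c_2 (1 + ..) ^ r = 0` (`a x ^ p` and `c z ^ r` the largest
terms), where `k = 0` or `w ^ k` is at least a power of `N`. Dirichlet's theorem on simultaneous approximation,
in a one sided form, gives an integer `f` such that all positions, counted from the leading digits, are short
of multiples `m f` by at most `f / L`, with bounded `m`. So the three bases are values at `X = w ^ (-f)` of
polynomials `P`, `Q`, `R` with constant term `1`, bounded degree and integral coefficients which are at most a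
small power of `w ^ f`. As the coefficients of the low powers of `X` in
`F = c_0 P ^ p + c_1' X ^ m Q ^ q + c_2 R ^ r` are also small, `F` is divisible by a high power of `X`. A
Wronskian argument for the functions `P ^ p`, `X ^ m Q ^ q`, `R ^ r`, `F` then shows that `P` and `R` divide
powers of each other, when both exponents are large; as `x` and `z` are coprime, both would divide powers of
`w`. So one of the exponents and then all of them are bounded in terms of `D` and `θ`, and the bounds for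
sparse solutions with bounded exponents (starting library, H458) finish the proof.
-/

set_option autoImplicit false

namespace Pool.Agent.Results.MP_be1fae_nt.IsolatedLeadingDigit

/-- `b = w ^ n + c_1 w ^ (e_1) + ... + c_D w ^ (e_D)` with `e_i ≤ (1 - θ) n` and `|c_i| ≤ X` -/
def Digits (w D : ℕ) (θ X : ℝ) (b : ℕ) : Prop :=
  ∃ (n : ℕ) (e : Fin D → ℕ) (c : Fin D → ℤ), (∀ i, (e i : ℝ) ≤ (1 - θ) * n) ∧
    (∀ i, |(c i : ℝ)| ≤ X) ∧ (b : ℤ) = (w : ℤ) ^ n + ∑ i, c i * (w : ℤ) ^ (e i)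

/-- `b` divides a power of `w` -/
def DividesPower (w b : ℕ) : Prop := ∃ n : ℕ, b ∣ w ^ n

/-- solutions of `a x ^ p + b y ^ q = c z ^ r` with nonzero entries, `gcd (ax, by, cz) = 1`, positive
exponents, `1/p + 1/q + 1/r ≤ 1` -/
def Solution (a b c x y z : ℤ) (p q r : ℕ) : Prop :=
  a ≠ 0 ∧ b ≠ 0 ∧ c ≠ 0 ∧ x ≠ 0 ∧ y ≠ 0 ∧ z ≠ 0 ∧ 0 < p ∧ 0 < q ∧ 0 < r ∧
    (1 : ℚ) / p + 1 / q + 1 / r ≤ 1 ∧ Int.gcd (a * x) (Int.gcd (b * y) (c * z)) = 1 ∧
    a * x ^ p + b * y ^ q = c * z ^ r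

/-- the triples of terms of the solutions with coefficients and exponents at most `N ^ δ`, such that for
some `w ≥ 2` at most one of the bases `x, y, z` divides a power of `w` and the absolute values of the bases
are at least `N ^ θ` and have `Digits` with `X = N ^ δ`, where `N = max (|x|, |y|, |z|)` -/
def Terms (D : ℕ) (θ δ : ℝ) : Set (ℤ × ℤ × ℤ) :=
  {t | ∃ (a b c x y z : ℤ) (p q r w N : ℕ), Solution a b c x y z p q r ∧
    t = (a * x ^ p, b * y ^ q, c * z ^ r) ∧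
    N = max x.natAbs (max y.natAbs z.natAbs) ∧
    |(a : ℝ)| ≤ (N : ℝ) ^ δ ∧ |(b : ℝ)| ≤ (N : ℝ) ^ δ ∧ |(c : ℝ)| ≤ (N : ℝ) ^ δ ∧
    (p : ℝ) ≤ (N : ℝ) ^ δ ∧ (q : ℝ) ≤ (N : ℝ) ^ δ ∧ (r : ℝ) ≤ (N : ℝ) ^ δ ∧
    (N : ℝ) ^ θ ≤ x.natAbs ∧ (N : ℝ) ^ θ ≤ y.natAbs ∧ (N : ℝ) ^ θ ≤ z.natAbs ∧ 2 ≤ w ∧
    Digits w D θ ((N : ℝ) ^ δ) x.natAbs ∧ Digits w D θ ((N : ℝ) ^ δ) y.natAbs ∧
    Digits w D θ ((N : ℝ) ^ δ) z.natAbs ∧
    ¬ (DividesPower w x.natAbs ∧ DividesPower w y.natAbs) ∧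
    ¬ (DividesPower w x.natAbs ∧ DividesPower w z.natAbs) ∧
    ¬ (DividesPower w y.natAbs ∧ DividesPower w z.natAbs)}

theorem ineq_of {l m k : ℕ} (hl : 0 < l) (hm : 0 < m) (hk : 0 < k)
    (h : (1 : ℚ) / l + 1 / m + 1 / k ≤ 1) : m * k + k * l + l * m ≤ l * m * k := by
  have hl' : (0 : ℚ) < l := by exact_mod_cast hl
  have hm' : (0 : ℚ) < m := by exact_mod_cast hm
  have hk' : (0 : ℚ) < k := by exact_mod_cast hk
  have h1 : ((m * k + k * l + l * m : ℕ) : ℚ) ≤ ((l * m * k : ℕ) : ℚ) := by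
    push_cast
    have h2 := mul_le_mul_of_nonneg_right h (by positivity : (0 : ℚ) ≤ l * m * k)
    have h3 : ((1 : ℚ) / l + 1 / m + 1 / k) * (l * m * k) = m * k + k * l + l * m := by
      field_simp
    linarith
  exact_mod_cast h1

/-- a sign can be moved to the coefficient -/
theorem sign_pow (a x : ℤ) (p : ℕ) (ha : a ≠ 0) :
    ∃ a' : ℤ, a' ≠ 0 ∧ |a'| = |a| ∧ a' * ((x.natAbs : ℕ) : ℤ) ^ p = a * x ^ p := by
  rcases Int.natAbs_eq x with h | h
  · refine ⟨a, ha, rfl, ?_⟩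
    conv_rhs => rw [h]
  · refine ⟨a * (-1) ^ p, mul_ne_zero ha (pow_ne_zero _ (by norm_num)), ?_, ?_⟩
    · rw [abs_mul, abs_pow]; simp
    · have h2 : x ^ p = (-1) ^ p * ((x.natAbs : ℕ) : ℤ) ^ p := by
        conv_lhs => rw [h]
        exact neg_pow _ _
      rw [h2]; ring

/-- two of the three bases are coprime -/
theorem coprime_of {a b c x y z : ℤ} {p q r : ℕ} (hp : 0 < p) (hq : 0 < q) (hr : 0 < r)
    (hg : Int.gcd (a * x) (Int.gcd (b * y) (c * z)) = 1) (heq : a * x ^ p + b * y ^ q = c * z ^ r) :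
    Nat.Coprime x.natAbs y.natAbs ∧ Nat.Coprime x.natAbs z.natAbs ∧ Nat.Coprime y.natAbs z.natAbs := by
  have key : ∀ l : ℕ, l.Prime → (l : ℤ) ∣ a * x → (l : ℤ) ∣ b * y → (l : ℤ) ∣ c * z → False := by
    intro l hl h1 h2 h3
    have h4 : (l : ℤ) ∣ (Int.gcd (b * y) (c * z) : ℤ) := Int.dvd_coe_gcd h2 h3
    have h5 : (l : ℤ) ∣ (Int.gcd (a * x) (Int.gcd (b * y) (c * z)) : ℤ) := Int.dvd_coe_gcd h1 h4
    rw [hg] at h5
    have h6 : l ∣ 1 := by exact_mod_cast h5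
    exact hl.one_lt.ne' (Nat.dvd_one.1 h6)
  have red : ∀ {l : ℕ} {u v : ℤ} {n : ℕ}, l.Prime → (l : ℤ) ∣ u * v ^ n → (l : ℤ) ∣ u * v := by
    intro l u v n hl h
    rcases (Nat.prime_iff_prime_int.1 hl).dvd_or_dvd h with h1 | h1
    · exact h1.mul_right _
    · exact ((Nat.prime_iff_prime_int.1 hl).dvd_of_dvd_pow h1).mul_left _
  refine ⟨?_, ?_, ?_⟩
  · refine Nat.Coprime.symm (Nat.coprime_of_dvd ?_)
    intro l hl h1 h2
    have h1' : (l : ℤ) ∣ y := Int.natCast_dvd.2 h1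
    have h2' : (l : ℤ) ∣ x := Int.natCast_dvd.2 h2
    refine key l hl (h2'.mul_left _) (h1'.mul_left _) (red hl (n := r) ?_)
    rw [← heq]
    exact dvd_add ((dvd_pow h2' hp.ne').mul_left _) ((dvd_pow h1' hq.ne').mul_left _)
  · refine Nat.Coprime.symm (Nat.coprime_of_dvd ?_)
    intro l hl h1 h2
    have h1' : (l : ℤ) ∣ z := Int.natCast_dvd.2 h1
    have h2' : (l : ℤ) ∣ x := Int.natCast_dvd.2 h2
    refine key l hl (h2'.mul_left _) (red hl (n := q) ?_) (h1'.mul_left _)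
    have h3 : b * y ^ q = c * z ^ r - a * x ^ p := by linarith
    rw [h3]
    exact dvd_sub ((dvd_pow h1' hr.ne').mul_left _) ((dvd_pow h2' hp.ne').mul_left _)
  · refine Nat.Coprime.symm (Nat.coprime_of_dvd ?_)
    intro l hl h1 h2
    have h1' : (l : ℤ) ∣ z := Int.natCast_dvd.2 h1
    have h2' : (l : ℤ) ∣ y := Int.natCast_dvd.2 h2
    refine key l hl (red hl (n := p) ?_) (h2'.mul_left _) (h1'.mul_left _)
    have h3 : a * x ^ p = c * z ^ r - b * y ^ q := by linarith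
    rw [h3]
    exact dvd_sub ((dvd_pow h1' hr.ne').mul_left _) ((dvd_pow h2' hq.ne').mul_left _)

theorem result (D : ℕ) (θ : ℝ) (hθ : 0 < θ) : ∃ δ : ℝ, 0 < δ ∧ (Terms D θ δ).Finite := by
  obtain ⟨R, hR⟩ := exists_nat_ge (1 / θ)
  have hRθ : 1 ≤ (R : ℝ) * θ := by
    rw [div_le_iff₀ hθ] at hR; exact hR
  obtain ⟨M, hM⟩ := Pool.Agent.Run7.h777.FC.mainC D R
  refine ⟨1 / (M + 1), by positivity, (hM.image (fun v : ℤ × ℤ × ℤ => (v.1, v.2.1, -v.2.2))).subset ?_⟩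
  rintro v ⟨a, b, c, x, y, z, p, q, r, w, N, ⟨ha, hb, hc, hx, hy, hz, hp, hq, hr, hpqr, hg, heq⟩, rfl,
    hN, la, lb, lc, lp, lq, lr, nx, ny, nz, hw,
    ⟨ax, ex, cx, hex, hcx, hxd⟩, ⟨ay, ey, cy, hey, hcy, hyd⟩, ⟨az, ez, cz, hez, hcz, hzd⟩, d1, d2, d3⟩
  obtain ⟨k1, k2, k3⟩ := coprime_of hp hq hr hg heq
  have hNx : x.natAbs ≤ N := by rw [hN]; exact le_max_left _ _
  have hNy : y.natAbs ≤ N := by rw [hN]; exact (le_max_left _ _).trans (le_max_right _ _)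
  have hNz : z.natAbs ≤ N := by rw [hN]; exact (le_max_right _ _).trans (le_max_right _ _)
  have hx1 : 1 ≤ x.natAbs := Int.natAbs_pos.2 hx
  have hy1 : 1 ≤ y.natAbs := Int.natAbs_pos.2 hy
  have hz1 : 1 ≤ z.natAbs := Int.natAbs_pos.2 hz
  have hN1 : 1 ≤ N := hx1.trans hNx
  have hN1r : (1 : ℝ) ≤ N := by exact_mod_cast hN1
  have hδ0 : 0 ≤ (1 : ℝ) / (M + 1) := by positivity
  have hX1 : (1 : ℝ) ≤ (N : ℝ) ^ ((1 : ℝ) / (M + 1)) := Real.one_le_rpow hN1r hδ0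
  obtain ⟨B, hB⟩ : ∃ B, B = ⌊(N : ℝ) ^ ((1 : ℝ) / (M + 1))⌋₊ := ⟨_, rfl⟩
  have hB1 : 1 ≤ B := by rw [hB, Nat.one_le_floor_iff]; exact hX1
  have hBM : B ^ M ≤ N := by
    have h1 : (B : ℝ) ≤ (N : ℝ) ^ ((1 : ℝ) / (M + 1)) := by
      rw [hB]; exact Nat.floor_le (by linarith)
    have h2 : (B : ℝ) ^ M ≤ N := by
      calc (B : ℝ) ^ M ≤ ((N : ℝ) ^ ((1 : ℝ) / (M + 1))) ^ M := pow_le_pow_left₀ (by positivity) h1 _
        _ = (N : ℝ) ^ ((1 : ℝ) / (M + 1) * M) := by rw [← Real.rpow_natCast, ← Real.rpow_mul (by positivity)]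
        _ ≤ (N : ℝ) ^ (1 : ℝ) := by
            apply Real.rpow_le_rpow_of_exponent_le hN1r
            rw [div_mul_eq_mul_div, one_mul, div_le_one (by positivity)]
            linarith
        _ = N := Real.rpow_one _
    exact_mod_cast h2
  have hnat : ∀ {n : ℕ}, (n : ℝ) ≤ (N : ℝ) ^ ((1 : ℝ) / (M + 1)) → n ≤ B := fun h => by
    rw [hB]; exact Nat.le_floor h
  have hint : ∀ {n : ℤ}, |(n : ℝ)| ≤ (N : ℝ) ^ ((1 : ℝ) / (M + 1)) → |n| ≤ (B : ℤ) := by
    intro n h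
    have h2 : (n.natAbs : ℝ) ≤ (N : ℝ) ^ ((1 : ℝ) / (M + 1)) := by
      rw [Nat.cast_natAbs]; simpa using h
    rw [Int.abs_eq_natAbs]
    exact_mod_cast hnat h2
  have hNR : ∀ b : ℕ, (N : ℝ) ^ θ ≤ b → N ≤ b ^ R := by
    intro b hb
    have h1 : (N : ℝ) ≤ (b : ℝ) ^ R := by
      calc (N : ℝ) = (N : ℝ) ^ (1 : ℝ) := (Real.rpow_one _).symm
        _ ≤ (N : ℝ) ^ (θ * R) := Real.rpow_le_rpow_of_exponent_le hN1r (by linarith)
        _ = ((N : ℝ) ^ θ) ^ R := by rw [← Real.rpow_natCast, ← Real.rpow_mul (by positivity)]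
        _ ≤ (b : ℝ) ^ R := pow_le_pow_left₀ (by positivity) hb _
    exact_mod_cast h1
  have hdig : ∀ {b a : ℕ} {e : Fin D → ℕ} {c : Fin D → ℤ}, (∀ i, (e i : ℝ) ≤ (1 - θ) * a) →
      (∀ i, |(c i : ℝ)| ≤ (N : ℝ) ^ ((1 : ℝ) / (M + 1))) →
      (b : ℤ) = (w : ℤ) ^ a + ∑ i, c i * (w : ℤ) ^ (e i) →
      Pool.Agent.Run7.h777.FC.Dig w D R B b a e c := by
    intro b a e c he hc hb
    refine ⟨fun i => ?_, fun i => hint (hc i), hb⟩
    have h1 := he i
    have ha : (0 : ℝ) ≤ a := Nat.cast_nonneg a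
    have h2 : (e i : ℝ) ≤ a := by nlinarith
    have h3 : e i ≤ a := by exact_mod_cast h2
    refine ⟨h3, ?_⟩
    have h4 : (a : ℝ) ≤ R * ((a : ℝ) - e i) := by
      have h5 : θ * a ≤ (a : ℝ) - e i := by linarith
      have h6 : (0 : ℝ) ≤ R := Nat.cast_nonneg R
      calc (a : ℝ) ≤ (R * θ) * a := le_mul_of_one_le_left ha hRθ
        _ = R * (θ * a) := by ring
        _ ≤ R * ((a : ℝ) - e i) := mul_le_mul_of_nonneg_left h5 h6
    rw [← Nat.cast_sub h3] at h4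
    exact_mod_cast h4
  obtain ⟨a', ha', ea, fa⟩ := sign_pow a x p ha
  obtain ⟨b', hb', eb, fb⟩ := sign_pow b y q hb
  obtain ⟨c', hc', ec, fc⟩ := sign_pow (-c) z r (neg_ne_zero.2 hc)
  rw [abs_neg] at ec
  refine ⟨(a' * ((x.natAbs : ℕ) : ℤ) ^ p, b' * ((y.natAbs : ℕ) : ℤ) ^ q,
    c' * ((z.natAbs : ℕ) : ℤ) ^ r), ?_, by
      simp only [fa, fb, fc]
      rw [Prod.mk.injEq, Prod.mk.injEq]
      exact ⟨rfl, rfl, by ring⟩⟩
  refine ⟨![a', b', c'], ![x.natAbs, y.natAbs, z.natAbs], ![p, q, r], ![ax, ay, az], ![ex, ey, ez],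
    ![cx, cy, cz], w, B, N, hw, hB1, ?_, ?_, ?_, ?_, ?_, ineq_of hp hq hr hpqr, ?_, ?_, hBM, ?_, rfl⟩
  · intro j
    fin_cases j
    · exact hx1
    · exact hy1
    · exact hz1
  · intro j
    fin_cases j
    · exact ⟨hp, hnat lp⟩
    · exact ⟨hq, hnat lq⟩
    · exact ⟨hr, hnat lr⟩
  · intro j
    fin_cases j
    · exact ⟨ha', by show |a'| ≤ (B : ℤ); rw [ea]; exact hint la⟩
    · exact ⟨hb', by show |b'| ≤ (B : ℤ); rw [eb]; exact hint lb⟩
    · exact ⟨hc', by show |c'| ≤ (B : ℤ); rw [ec]; exact hint lc⟩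
  · intro i j hij
    fin_cases i <;> fin_cases j
    · exact absurd rfl hij
    · exact k1
    · exact k2
    · exact k1.symm
    · exact absurd rfl hij
    · exact k3
    · exact k2.symm
    · exact k3.symm
    · exact absurd rfl hij
  · rw [Fin.sum_univ_three]
    show a' * ((x.natAbs : ℕ) : ℤ) ^ p + b' * ((y.natAbs : ℕ) : ℤ) ^ q +
      c' * ((z.natAbs : ℕ) : ℤ) ^ r = 0
    rw [fa, fb, fc]
    linarith
  · intro j
    fin_cases j
    · exact hdig hex hcx hxd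
    · exact hdig hey hcy hyd
    · exact hdig hez hcz hzd
  · intro j
    fin_cases j
    · exact ⟨hNx, hNR _ nx⟩
    · exact ⟨hNy, hNR _ ny⟩
    · exact ⟨hNz, hNR _ nz⟩
  · intro i j h1 h2
    fin_cases i <;> fin_cases j
    · rfl
    · exact absurd ⟨h1, h2⟩ d1
    · exact absurd ⟨h1, h2⟩ d2
    · exact absurd ⟨h2, h1⟩ d1
    · rfl
    · exact absurd ⟨h1, h2⟩ d3
    · exact absurd ⟨h2, h1⟩ d2
    · exact absurd ⟨h2, h1⟩ d3
    · rfl

end Pool.Agent.Results.MP_be1fae_nt.IsolatedLeadingDigit
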