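import Mathlib
import Pool.Agent.Run7.h880.SU.Fin

/-!
# Generalised Fermat equations with `S`-unit coefficients: few solutions with a small term

Let `S` be a finite set of primes, `Q` their product, `X ≥ 3` and `2 ≤ H ≤ X`. The `S`-solutions of
`a x ^ p + b y ^ q = c z ^ r` with terms at most `X` in absolute value and a term of absolute value at most `H`
have at most

`exp (4720 (|S| + 1) (log X) ^ (1/3) (log (H Q log X)) ^ (2/3))`

different triples of terms `(a x ^ p, b y ^ q, c z ^ r)`. All exponents, bases and coefficients are free, and the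
constant is absolute, so that `S` may depend on `X`: the bound is `X ^ o(1)` as long as `|S| ^ (3/2) log (H Q log X)` is
`o (log X)`, for example if `S` consists of all primes up to `(log X) ^ (2/5)` and `log H` is at most `(log X) ^ (2/5)`.

Proof. The two other terms are, up to sign, coprime numbers `u < v ≤ u + H` of the form `c z ^ p` with `p` prime and
a number `c` composed of the primes of `S` with exponents smaller than `p`. Let `T` be a parameter.

* Different exponents, one of them a prime `a ≤ T`: `c z ^ a - d = b w ^ l` with `0 < |d| ≤ H`. Let `α ^ a = d c ^ (a - 1)`.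
  In the field generated by `α` (a cyclotomic field if `d c ^ (a - 1)` is an `a`-th power) the ideal of `c z - α` is an
  `l`-th power up to the prime ideals above `a Q`. The numbers `α ^ i` divided by suitable `S`-units `≤ c` are integers of
  size at most `H Q`; hence the classes are at most `(T H Q) ^ (3 T) l ^ ((|S| + 3) T)` in number, and in a class the large
  solutions satisfy `z' ≥ 2 z`. For `a = 2` and `d c` a square there is an elementary argument.
* Equal exponents: the equation `c' y ^ p - c x ^ p = δ` is treated by elementary gap principles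
  (solutions of Pell equations congruent modulo `δ` for `p = 2`).
* Both exponents `p ≠ q` greater than `T ≥ 4 (E - 1)`: for given `c`, `c'`, `δ` the `E ^ 2` products `x ^ i y ^ j`, `i, j < E`,
  of `x = (t / c) ^ (1/p)` and `y = ((t + δ) / c') ^ (1/q)` have a vanishing determinant at any `E ^ 2` integral points of an
  interval of length `t / q'`, `q' ≈ 9 X ^ (1 / E ^ 2)`; the relation has at most `2 p q` zeros.

Finally `T ≈ 4 E ≈ (log X / log (H Q log X)) ^ (1/3)`.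
-/

set_option autoImplicit false

namespace Pool.Agent.Results.MP_be1fae_nt.SmallTerms

open Pool.Agent.Run7.h880.SU

/-- `S`-solutions, as in the problem -/
def SSolution (S : Finset ℕ) (a b c x y z : ℤ) (p q r : ℕ) : Prop :=
  0 < p ∧ 0 < q ∧ 0 < r ∧ (1 : ℝ) / p + 1 / q + 1 / r < 1 ∧ a ≠ 0 ∧ b ≠ 0 ∧ c ≠ 0 ∧
    (∀ ℓ : ℕ, ℓ.Prime → (ℓ : ℤ) ∣ a * b * c → ℓ ∈ S) ∧ x ≠ 0 ∧ y ≠ 0 ∧ z ≠ 0 ∧
    Int.gcd ((Int.gcd (a * x) (b * y) : ℕ) : ℤ) (c * z) = 1 ∧ a * x ^ p + b * y ^ q = c * z ^ r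

/-- the triples of terms of the `S`-solutions, at most `X` in absolute value, one of them at most `H` -/
def Terms (S : Finset ℕ) (X H : ℕ) : Set (ℤ × ℤ × ℤ) :=
  {t | ∃ (a b c x y z : ℤ) (p q r : ℕ), SSolution S a b c x y z p q r ∧
    t = (a * x ^ p, b * y ^ q, c * z ^ r) ∧ |t.1| ≤ X ∧ |t.2.1| ≤ X ∧ |t.2.2| ≤ X ∧
    (|t.1| ≤ H ∨ |t.2.1| ≤ H ∨ |t.2.2| ≤ H)}

/-- a pair of numbers composed of the primes of `S` up to perfect powers -/
def G (Q X H : ℕ) : Set (ℕ × ℕ) := {t | t ∈ PSQ Q X H ∨ (t.2, t.1) ∈ PSQ Q X H ∨ t = (1, 1)}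

theorem exp_ge_two {p q r : ℕ} (hp : 0 < p) (hq : 0 < q) (hr : 0 < r)
    (h : (1 : ℝ) / p + 1 / q + 1 / r < 1) : 2 ≤ p ∧ 2 ≤ q ∧ 2 ≤ r := by
  have h1 : (0 : ℝ) < 1 / p := by positivity
  have h2 : (0 : ℝ) < 1 / q := by positivity
  have h3 : (0 : ℝ) < 1 / r := by positivity
  refine ⟨?_, ?_, ?_⟩
  · by_contra hc
    have : p = 1 := by omega
    rw [this, Nat.cast_one, div_one] at h
    linarith
  · by_contra hc
    have : q = 1 := by omega
    rw [this, Nat.cast_one, div_one] at h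
    linarith
  · by_contra hc
    have : r = 1 := by omega
    rw [this, Nat.cast_one, div_one] at h
    linarith

theorem qp_of {S : Finset ℕ} (hS : ∀ ℓ ∈ S, ℓ.Prime) {a x : ℤ} {p : ℕ} (ha : a ≠ 0) (hx : x ≠ 0) (hp : 2 ≤ p)
    (h : ∀ ℓ : ℕ, ℓ.Prime → (ℓ : ℤ) ∣ a → ℓ ∈ S) : QP (∏ ℓ ∈ S, ℓ) (a * x ^ p).natAbs := by
  have hQ : ∏ ℓ ∈ S, ℓ ≠ 0 := Finset.prod_ne_zero_iff.2 fun ℓ hℓ => (hS ℓ hℓ).ne_zero
  refine ⟨a.natAbs, x.natAbs, p, ?_, hp, Int.natAbs_pos.2 hx, ?_⟩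
  · refine qu_of_primes (Int.natAbs_ne_zero.2 ha) hQ fun ℓ hℓ hd => ?_
    exact Finset.dvd_prod_of_mem _ (h ℓ hℓ (Int.natCast_dvd.2 hd))
  · rw [Int.natAbs_mul, Int.natAbs_pow]

/-- two coprime terms whose difference or sum is small -/
theorem mem_G {Q X H : ℕ} {u v w : ℤ} (hu : QP Q u.natAbs) (hv : QP Q v.natAbs)
    (hco : Nat.Coprime u.natAbs v.natAbs) (huX : |u| ≤ X) (hvX : |v| ≤ X) (hw : |w| ≤ H)
    (h : u + v = w ∨ u - v = w) : (u.natAbs, v.natAbs) ∈ G Q X H := by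
  have h1 : u.natAbs ≤ X := by
    rw [Int.abs_eq_natAbs] at huX
    exact_mod_cast huX
  have h2 : v.natAbs ≤ X := by
    rw [Int.abs_eq_natAbs] at hvX
    exact_mod_cast hvX
  have h3 : w.natAbs ≤ H := by
    rw [Int.abs_eq_natAbs] at hw
    exact_mod_cast hw
  rcases lt_trichotomy u.natAbs v.natAbs with h4 | h4 | h4
  · left
    exact ⟨h4, h2, by simp only; omega, hco, hu, hv⟩
  · right
    right
    rw [h4, Nat.coprime_self] at hco
    rw [h4, hco]
  · right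
    left
    exact ⟨h4, h1, by simp only; omega, hco.symm, hv, hu⟩

theorem card_G {Q X H : ℕ} (hfin : (PSQ Q X H).Finite) : (G Q X H).Finite ∧
    (G Q X H).ncard ≤ 2 * (PSQ Q X H).ncard + 1 := by
  have h1 : G Q X H = PSQ Q X H ∪ ((fun t : ℕ × ℕ => (t.2, t.1)) '' PSQ Q X H ∪ {(1, 1)}) := by
    ext ⟨u, v⟩
    constructor
    · rintro (h | h | h)
      · exact Or.inl h
      · exact Or.inr (Or.inl ⟨(v, u), h, rfl⟩)
      · exact Or.inr (Or.inr h)
    · rintro (h | ⟨⟨u', v'⟩, h, h'⟩ | h)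
      · exact Or.inl h
      · simp only [Prod.mk.injEq] at h'
        obtain ⟨rfl, rfl⟩ := h'
        exact Or.inr (Or.inl h)
      · exact Or.inr (Or.inr h)
  have h2 : ((fun t : ℕ × ℕ => (t.2, t.1)) '' PSQ Q X H).Finite := hfin.image _
  rw [h1]
  refine ⟨hfin.union (h2.union (Set.finite_singleton _)), ?_⟩
  have h3 := Set.ncard_union_le (PSQ Q X H) ((fun t : ℕ × ℕ => (t.2, t.1)) '' PSQ Q X H ∪ {(1, 1)})
  have h4 := Set.ncard_union_le ((fun t : ℕ × ℕ => (t.2, t.1)) '' PSQ Q X H) {((1, 1) : ℕ × ℕ)}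
  have h5 := Set.ncard_image_le (f := fun t : ℕ × ℕ => (t.2, t.1)) hfin
  rw [Set.ncard_singleton] at h4
  omega

/-- the triples with given absolute values of two of the terms -/
def F (i : Fin 3) (s t : Bool) (u v : ℕ) : ℤ × ℤ × ℤ :=
  let U : ℤ := if s then u else -u
  let V : ℤ := if t then v else -v
  if i = 0 then (U, V, U + V) else if i = 1 then (U, V - U, V) else (V - U, U, V)

/-- **Few solutions with a small term.** -/
theorem result (S : Finset ℕ) (hS : ∀ ℓ ∈ S, ℓ.Prime) (X H : ℕ) (hX : 3 ≤ X) (hH : 2 ≤ H) (hHX : H ≤ X) :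
    (Terms S X H).Finite ∧ ((Terms S X H).ncard : ℝ) ≤
      Real.exp (4720 * (S.card + 1) * (Real.log X) ^ ((1 : ℝ) / 3) *
        (Real.log (H * (∏ ℓ ∈ S, ℓ : ℕ) * Real.log X)) ^ ((2 : ℝ) / 3)) := by
  classical
  obtain ⟨Q, hQ⟩ : ∃ Q, Q = ∏ ℓ ∈ S, ℓ := ⟨_, rfl⟩
  have hQ1 : 1 ≤ Q := by
    rw [hQ]
    exact Nat.pos_of_ne_zero (Finset.prod_ne_zero_iff.2 fun ℓ hℓ => (hS ℓ hℓ).ne_zero)
  have hcardQ : Q.primeFactors.card = S.card := by
    rw [hQ, Nat.primeFactors_prod hS]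
  obtain ⟨h1, h2⟩ := pairsQ_final (Q := Q) hQ1 hX hH hHX
  obtain ⟨h3, h4⟩ := card_G h1
  have hsub : Terms S X H ⊆ ((fun w : (Fin 3 × Bool × Bool) × (ℕ × ℕ) => F w.1.1 w.1.2.1 w.1.2.2 w.2.1 w.2.2) ''
      ((Set.univ : Set (Fin 3 × Bool × Bool)) ×ˢ G Q X H)) := by
    rintro t ⟨a, b, c, x, y, z, p, q, r, ⟨hp, hq, hr, hpqr, ha, hb, hc, hS', hx, hy, hz, hg, heq⟩, rfl, t1, t2, t3, t4⟩
    obtain ⟨hp2, hq2, hr2⟩ := exp_ge_two hp hq hr hpqr
    simp only at t1 t2 t3 t4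
    have qa : QP Q (a * x ^ p).natAbs := by
      rw [hQ]
      exact qp_of hS ha hx hp2 fun ℓ hℓ hd => hS' ℓ hℓ ((hd.mul_right b).mul_right c)
    have qb : QP Q (b * y ^ q).natAbs := by
      rw [hQ]
      exact qp_of hS hb hy hq2 fun ℓ hℓ hd => hS' ℓ hℓ ((hd.mul_left a).mul_right c)
    have qc : QP Q (c * z ^ r).natAbs := by
      rw [hQ]
      exact qp_of hS hc hz hr2 fun ℓ hℓ hd => hS' ℓ hℓ (hd.mul_left (a * b))
    have hbase : ∀ (e f : ℤ) (k : ℕ) (ℓ : ℕ), ℓ.Prime → (ℓ : ℤ) ∣ e * f ^ k → (ℓ : ℤ) ∣ e * f := by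
      intro e f k ℓ hℓ hd
      have hℓ' : Prime (ℓ : ℤ) := Nat.prime_iff_prime_int.1 hℓ
      rcases hℓ'.dvd_or_dvd hd with h | h
      · exact h.mul_right f
      · exact (hℓ'.dvd_of_dvd_pow h).mul_left e
    have hall : ∀ ℓ : ℕ, ℓ.Prime → (ℓ : ℤ) ∣ a * x ^ p → (ℓ : ℤ) ∣ b * y ^ q → (ℓ : ℤ) ∣ c * z ^ r → False := by
      intro ℓ hℓ d1 d2 d3
      have e1 : (ℓ : ℤ) ∣ ((Int.gcd (a * x) (b * y) : ℕ) : ℤ) :=
        Int.dvd_coe_gcd (hbase a x p ℓ hℓ d1) (hbase b y q ℓ hℓ d2)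
      have e2 : (ℓ : ℤ) ∣ ((Int.gcd ((Int.gcd (a * x) (b * y) : ℕ) : ℤ) (c * z) : ℕ) : ℤ) :=
        Int.dvd_coe_gcd e1 (hbase c z r ℓ hℓ d3)
      rw [hg] at e2
      have e3 : ℓ ∣ 1 := by exact_mod_cast e2
      exact hℓ.one_lt.ne' (Nat.dvd_one.1 e3)
    have hcop : ∀ u v : ℤ, (∀ ℓ : ℕ, ℓ.Prime → (ℓ : ℤ) ∣ u → (ℓ : ℤ) ∣ v → False) →
        Nat.Coprime u.natAbs v.natAbs := by
      intro u v h
      rw [Nat.coprime_iff_gcd_eq_one]
      by_contra hne
      obtain ⟨ℓ, hℓ, hd⟩ := Nat.exists_prime_and_dvd hne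
      exact h ℓ hℓ (Int.natCast_dvd.2 (hd.trans (Nat.gcd_dvd_left _ _)))
        (Int.natCast_dvd.2 (hd.trans (Nat.gcd_dvd_right _ _)))
    have hsg : ∀ u : ℤ, ∃ s : Bool, (if s then (u.natAbs : ℤ) else -(u.natAbs : ℤ)) = u := by
      intro u
      rcases Int.natAbs_eq u with h | h
      · exact ⟨true, by simp only [if_true]; exact h.symm⟩
      · exact ⟨false, by simp only [Bool.false_eq_true, if_false]; exact h.symm⟩
    obtain ⟨sa, hsa⟩ := hsg (a * x ^ p)
    obtain ⟨sb, hsb⟩ := hsg (b * y ^ q)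
    obtain ⟨sc, hsc⟩ := hsg (c * z ^ r)
    rcases t4 with t4 | t4 | t4
    · -- the first term is small
      refine ⟨((2, sb, sc), ((b * y ^ q).natAbs, (c * z ^ r).natAbs)), ⟨Set.mem_univ _, ?_⟩, ?_⟩
      · refine mem_G (w := -(a * x ^ p)) qb qc (hcop _ _ fun ℓ hℓ d1 d2 => ?_) t2 t3
          (by rw [abs_neg]; exact t4) (Or.inr (by linarith))
        refine hall ℓ hℓ ?_ d1 d2
        have e1 : a * x ^ p = c * z ^ r - b * y ^ q := by linarith
        rw [e1]
        exact dvd_sub d2 d1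
      · simp only [F]
        rw [hsb, hsc]
        simp only [show ¬ ((2 : Fin 3) = 0) by decide, show ¬ ((2 : Fin 3) = 1) by decide, if_false, Prod.mk.injEq,
          and_true]
        linarith
    · -- the second term is small
      refine ⟨((1, sa, sc), ((a * x ^ p).natAbs, (c * z ^ r).natAbs)), ⟨Set.mem_univ _, ?_⟩, ?_⟩
      · refine mem_G (w := -(b * y ^ q)) qa qc (hcop _ _ fun ℓ hℓ d1 d2 => ?_) t1 t3
          (by rw [abs_neg]; exact t4) (Or.inr (by linarith))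
        refine hall ℓ hℓ d1 ?_ d2
        have e1 : b * y ^ q = c * z ^ r - a * x ^ p := by linarith
        rw [e1]
        exact dvd_sub d2 d1
      · simp only [F]
        rw [hsa, hsc]
        simp only [show ¬ ((1 : Fin 3) = 0) by decide, if_false, if_true, Prod.mk.injEq, true_and, and_true]
        linarith
    · -- the third term is small
      refine ⟨((0, sa, sb), ((a * x ^ p).natAbs, (b * y ^ q).natAbs)), ⟨Set.mem_univ _, ?_⟩, ?_⟩
      · refine mem_G (w := c * z ^ r) qa qb (hcop _ _ fun ℓ hℓ d1 d2 => ?_) t1 t2 t4 (Or.inl heq)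
        refine hall ℓ hℓ d1 d2 ?_
        rw [← heq]
        exact dvd_add d1 d2
      · simp only [F]
        rw [hsa, hsb]
        simp only [if_true, Prod.mk.injEq, true_and]
        exact heq
  have hfin2 : ((Set.univ : Set (Fin 3 × Bool × Bool)) ×ˢ G Q X H).Finite := Set.finite_univ.prod h3
  refine ⟨(hfin2.image _).subset hsub, ?_⟩
  have h5 : (Terms S X H).ncard ≤ 12 * (G Q X H).ncard := by
    refine (Set.ncard_le_ncard hsub (hfin2.image _)).trans ((Set.ncard_image_le hfin2).trans ?_)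
    rw [Set.ncard_prod, Set.ncard_univ, Nat.card_eq_fintype_card]
    simp
  have h6 : ((Terms S X H).ncard : ℝ) ≤ 24 * (PSQ Q X H).ncard + 12 := by
    have : (Terms S X H).ncard ≤ 24 * (PSQ Q X H).ncard + 12 := by omega
    exact_mod_cast this
  rw [← hQ]
  rw [hcardQ] at h2
  obtain ⟨M, hM⟩ : ∃ M : ℝ, M = (Real.log X) ^ ((1 : ℝ) / 3) * (Real.log (H * Q * Real.log X)) ^ ((2 : ℝ) / 3) :=
    ⟨_, rfl⟩
  have hM1 : 2 / 3 ≤ M := by
    have hXR : (3 : ℝ) ≤ X := by exact_mod_cast hX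
    have hHR : (2 : ℝ) ≤ H := by exact_mod_cast hH
    have hQR : (1 : ℝ) ≤ Q := by exact_mod_cast hQ1
    have hL1 : 1 ≤ Real.log X := by
      rw [Real.le_log_iff_exp_le (by linarith)]
      have := Real.exp_one_lt_d9
      linarith
    have hl2 : 0.69 < Real.log 2 := by
      have := Real.log_two_gt_d9
      linarith
    have h7 : 0.69 ≤ Real.log (H * Q * Real.log X) := by
      refine hl2.le.trans (Real.log_le_log (by norm_num) ?_)
      calc (2 : ℝ) = 2 * 1 * 1 := by norm_num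
        _ ≤ H * Q * Real.log X := by
            refine mul_le_mul (mul_le_mul hHR hQR (by norm_num) (by linarith)) hL1 (by norm_num) (by positivity)
    have h8 : (0.69 : ℝ) ≤ (Real.log (H * Q * Real.log X)) ^ ((2 : ℝ) / 3) := by
      calc (0.69 : ℝ) = (0.69 : ℝ) ^ (1 : ℝ) := (Real.rpow_one _).symm
        _ ≤ (0.69 : ℝ) ^ ((2 : ℝ) / 3) :=
            Real.rpow_le_rpow_of_exponent_ge (by norm_num) (by norm_num) (by norm_num)
        _ ≤ _ := Real.rpow_le_rpow (by norm_num) h7 (by norm_num)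
    have h9 : (1 : ℝ) ≤ (Real.log X) ^ ((1 : ℝ) / 3) := Real.one_le_rpow hL1 (by norm_num)
    rw [hM]
    calc (2 : ℝ) / 3 ≤ 1 * 0.69 := by norm_num
      _ ≤ _ := mul_le_mul h9 h8 (by norm_num) (by positivity)
  have hs0 : (0 : ℝ) ≤ S.card := Nat.cast_nonneg _
  have e1 : 4710 * ((S.card : ℝ) + 1) * (Real.log X) ^ ((1 : ℝ) / 3) *
      (Real.log (H * Q * Real.log X)) ^ ((2 : ℝ) / 3) = 4710 * ((S.card : ℝ) + 1) * M := by
    rw [hM]
    ring
  have e2 : 4720 * ((S.card : ℝ) + 1) * (Real.log X) ^ ((1 : ℝ) / 3) *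
      (Real.log (H * Q * Real.log X)) ^ ((2 : ℝ) / 3) = 4720 * ((S.card : ℝ) + 1) * M := by
    rw [hM]
    ring
  rw [e1] at h2
  rw [e2]
  obtain ⟨k, hk⟩ : ∃ k : ℝ, k = ((S.card : ℝ) + 1) * M := ⟨_, rfl⟩
  have hk1 : 2 / 3 ≤ k := by
    rw [hk]
    nlinarith
  have e3 : Real.exp (4720 * ((S.card : ℝ) + 1) * M) = Real.exp (10 * k) * Real.exp (4710 * ((S.card : ℝ) + 1) * M) := by
    rw [← Real.exp_add]
    congr 1
    rw [hk]
    ring
  rw [e3]
  have h10 : (36 : ℝ) ≤ Real.exp (10 * k) := by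
    have h11 : (5 : ℝ) * k + 1 ≤ Real.exp (5 * k) := Real.add_one_le_exp _
    have h12 : Real.exp (10 * k) = Real.exp (5 * k) * Real.exp (5 * k) := by
      rw [← Real.exp_add]
      congr 1
      ring
    have h13 : (5 / 2 : ℝ) * k + 1 ≤ Real.exp (5 / 2 * k) := Real.add_one_le_exp _
    have h14 : Real.exp (5 * k) = Real.exp (5 / 2 * k) * Real.exp (5 / 2 * k) := by
      rw [← Real.exp_add]
      congr 1
      ring
    have h15 : (8 / 3 : ℝ) ≤ Real.exp (5 / 2 * k) := by linarith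
    have h16 : (64 / 9 : ℝ) ≤ Real.exp (5 * k) := by
      rw [h14]
      nlinarith
    rw [h12]
    nlinarith
  have h11 : (1 : ℝ) ≤ Real.exp (4710 * ((S.card : ℝ) + 1) * M) := by
    refine Real.one_le_exp ?_
    have : 0 ≤ M := by linarith
    positivity
  calc ((Terms S X H).ncard : ℝ) ≤ 24 * (PSQ Q X H).ncard + 12 := h6
    _ ≤ 24 * Real.exp (4710 * ((S.card : ℝ) + 1) * M) + 12 * Real.exp (4710 * ((S.card : ℝ) + 1) * M) := by
        linarith
    _ = 36 * Real.exp (4710 * ((S.card : ℝ) + 1) * M) := by ring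
    _ ≤ _ := mul_le_mul_of_nonneg_right h10 (Real.exp_pos _).le

end Pool.Agent.Results.MP_be1fae_nt.SmallTerms
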